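import Pool.Agent.Work.MP_db9399_bg_helper83.RND1

/-! THEOREM BIG, block CAPE: the last rounds (helper83). -/

set_option autoImplicit false

namespace Pool.Agent.Work.MP_db9399_bg.helper83

open Finset Classical
open Pool.Agent.Work.MP_db9399_bg
open Pool.Agent.Work.MP_db9399_all (nb)
open Pool.Agent.Work.MP_db9399_px (LWalk hit ee)
open Pool.Agent.Work.MP_db9399_dn (NB IsMat Tot)
open Pool.Agent.Work.MP_db9399_sc (cut Crit Conn Env Fam Rnd Hv)

universe u

section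
variable {V : Type u} [Fintype V] {l m r K K1 : ℕ}

theorem mem_eP {b : ZMod (2 * l + 1)} {t : Lbl l m r K K1} :
    t ∈ eP l m r K K1 b ↔ t.2.1 = b := by
  unfold eP
  rw [mem_bx]
  simp

/-- symmetric difference -/
theorem near_all {lab : V → Lbl l m r K K1} {C Y : Finset V} {x : ℝ}
    (hn : ∀ b, Near (C ∩ cl lab (eP l m r K K1 b)) (Y ∩ cl lab (eP l m r K K1 b)) x) :
    ((C \ Y).card : ℝ) + ((Y \ C).card : ℝ) ≤ (2 * l + 1) * x := by
  have key : ∀ X Z : Finset V, (X \ Z).card ≤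
      ∑ b : ZMod (2 * l + 1), ((X ∩ cl lab (eP l m r K K1 b)) \
        (Z ∩ cl lab (eP l m r K K1 b))).card := by
    intro X Z
    have hsub : X \ Z ⊆ (univ : Finset (ZMod (2 * l + 1))).biUnion fun b =>
        (X ∩ cl lab (eP l m r K K1 b)) \ (Z ∩ cl lab (eP l m r K K1 b)) := by
      intro v hv
      rw [mem_sdiff] at hv
      refine mem_biUnion.mpr ⟨(lab v).2.1, mem_univ _, ?_⟩
      rw [mem_sdiff, mem_inter, mem_inter, mem_cl, mem_eP]
      exact ⟨⟨hv.1, rfl⟩, fun h => hv.2 h.1⟩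
    exact (card_le_card hsub).trans card_biUnion_le
  have h1 := key C Y
  have h2 := key Y C
  calc ((C \ Y).card : ℝ) + ((Y \ C).card : ℝ)
      ≤ (∑ b : ZMod (2 * l + 1), (((C ∩ cl lab (eP l m r K K1 b)) \
        (Y ∩ cl lab (eP l m r K K1 b))).card : ℝ)) +
        ∑ b : ZMod (2 * l + 1), (((Y ∩ cl lab (eP l m r K K1 b)) \
        (C ∩ cl lab (eP l m r K K1 b))).card : ℝ) := by
        have h1' : ((C \ Y).card : ℝ) ≤ ∑ b : ZMod (2 * l + 1),
          (((C ∩ cl lab (eP l m r K K1 b)) \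
            (Y ∩ cl lab (eP l m r K K1 b))).card : ℝ) := by exact_mod_cast h1
        have h2' : ((Y \ C).card : ℝ) ≤ ∑ b : ZMod (2 * l + 1),
          (((Y ∩ cl lab (eP l m r K K1 b)) \
            (C ∩ cl lab (eP l m r K K1 b))).card : ℝ) := by exact_mod_cast h2
        exact add_le_add h1' h2'
    _ = ∑ b : ZMod (2 * l + 1), ((((C ∩ cl lab (eP l m r K K1 b)) \
        (Y ∩ cl lab (eP l m r K K1 b))).card : ℝ) +
        (((Y ∩ cl lab (eP l m r K K1 b)) \
        (C ∩ cl lab (eP l m r K K1 b))).card : ℝ)) := by rw [sum_add_distrib]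
    _ ≤ ∑ _b : ZMod (2 * l + 1), x := sum_le_sum fun b _ => hn b
    _ = (2 * l + 1) * x := by
        rw [sum_const, nsmul_eq_mul, card_univ_zmod]

/-- the cells partition every set -/
theorem sum_cells (lab : V → Lbl l m r K K1) (X : Finset V) :
    ∑ a : ZMod (2 * m + 1), (X ∩ Vc lab a).card = X.card := by
  have h := card_eq_sum_card_fiberwise (s := X) (t := (univ : Finset (ZMod (2 * m + 1))))
    (f := fun v => (lab v).1) (fun _ _ => mem_univ _)
  rw [h]
  refine sum_congr rfl fun a _ => ?_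
  congr 1
  ext v
  rw [mem_inter, mem_Vc, mem_filter]

end

theorem final_ineq2 {y l ε κ g x1 b1 b2 gd cv : ℝ} (hg : 0 < g)
    (hg1 : g ≤ 1 / 10) (hκ : 0 < κ) (hε : 0 ≤ ε) (hε1 : ε * (4 + 2 * κ) ≤ g / 40)
    (hl : 200 ≤ g * (2 * l + 1)) (hl0 : 0 < 2 * l + 1)
    (h1 : y * (l / (2 * l + 1) - 2 * ε) ≤ x1) (h2 : b1 ≤ (1 + 2 * κ) * ε * y) (h0 : 0 ≤ b2)
    (h3 : (2 + g / 2) * b2 ≤ cv) (h4 : cv ≤ (1 + ε) * y) (hcv : 0 ≤ cv)
    (h5 : x1 ≤ gd + b1 + b2) :
    g / 40 * cv ≤ gd := by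
  have e1 : l / (2 * l + 1) = 1 / 2 - 1 / 2 * (1 / (2 * l + 1)) := by
    have hne : (2 * l + 1) ≠ 0 := hl0.ne'
    rw [div_eq_iff hne, sub_mul, mul_assoc, one_div_mul_cancel hne]
    ring
  set u := 1 / (2 * l + 1) with hu
  rw [e1] at h1
  have hu1 : 200 * u ≤ g := by
    rw [hu, mul_one_div, div_le_iff₀ hl0]
    exact hl
  have hu0 : 0 < u := by rw [hu]; positivity
  have hb2 : b2 ≤ cv * (1 / 2 - g / 10) := by
    have h6 : (1 : ℝ) ≤ (2 + g / 2) * (1 / 2 - g / 10) := by nlinarith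
    have h7 : b2 * 1 ≤ b2 * ((2 + g / 2) * (1 / 2 - g / 10)) := mul_le_mul_of_nonneg_left h6 h0
    have h8 : (2 + g / 2) * b2 * (1 / 2 - g / 10) ≤ cv * (1 / 2 - g / 10) :=
      mul_le_mul_of_nonneg_right h3 (by linarith)
    nlinarith
  set A : ℝ := 1 / 2 - 1 / 2 * u - 2 * ε - (1 + 2 * κ) * ε with hA
  have hκε : 0 ≤ κ * ε := mul_nonneg hκ.le hε
  have hA0 : 0 ≤ A := by rw [hA]; nlinarith
  have hA1 : A ≤ 1 := by rw [hA]; nlinarith
  have hy : (1 - ε) * cv ≤ y := by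
    have hε2 : ε ≤ 1 := by nlinarith
    have h9 : (1 - ε) * cv ≤ (1 - ε) * ((1 + ε) * y) := mul_le_mul_of_nonneg_left h4 (by linarith)
    have hy0 : 0 ≤ y := by
      by_contra hneg
      push Not at hneg
      nlinarith
    nlinarith [mul_nonneg (sq_nonneg ε) hy0]
  have h10 : (1 - ε) * cv * A ≤ y * A := mul_le_mul_of_nonneg_right hy hA0
  have h11 : ε * cv * A ≤ ε * cv * 1 := mul_le_mul_of_nonneg_left hA1 (mul_nonneg hε hcv)
  have h12 : y * A - cv * (1 / 2 - g / 10) ≤ gd := by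
    rw [hA]
    nlinarith
  have h13 : (g / 10 - 1 / 2 * u - ε * (4 + 2 * κ)) * cv ≤ gd := by
    refine le_trans ?_ h12
    rw [hA] at h10 h11 ⊢
    nlinarith
  refine le_trans (mul_le_mul_of_nonneg_right ?_ hcv) h13
  linarith

theorem stmt_CAPE (hT1 : Stmt_T1.{u}) (hPAT : Stmt_PAT) (hGROW : Stmt_GROW.{u})
    (hDEEPF : Stmt_DEEPF.{u}) : Stmt_CAPE.{u} := by
  intro g hg hg1
  obtain ⟨κ, hκ0, hκ⟩ := hDEEPF g hg
  set ε : ℝ := g / (40 * (4 + 2 * κ)) with hεdef
  have hε0 : 0 < ε := by positivity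
  have hε1 : ε * (4 + 2 * κ) ≤ g / 40 := by
    rw [hεdef]
    have : (4 + 2 * κ) ≠ 0 := by positivity
    field_simp
    exact le_rfl
  refine ⟨⌈100 / g⌉₊ + 1, ?_⟩
  intro l hl
  have hl1 : 1 ≤ l := by omega
  have hlg : 200 ≤ g * (2 * (l : ℝ) + 1) := by
    have h1 : (100 / g : ℝ) ≤ l := by
      have h2 : ((⌈100 / g⌉₊ : ℕ) : ℝ) ≤ l := by
        exact_mod_cast (show ⌈100 / g⌉₊ ≤ l by omega)
      exact (Nat.le_ceil _).trans h2
    rw [div_le_iff₀ hg] at h1
    nlinarith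
  obtain ⟨δ1, hδ1, hT1'⟩ := hT1 g ε 2 (2 * l + 1) (2 * l + 1) hg hε0
  refine ⟨δ1, hδ1, ?_⟩
  intro m r K K1 hm
  have hM : 0 < Fintype.card (Lbl l m r K K1) := by rw [card_Lbl]; positivity
  obtain ⟨σ1, c11, ε1, d1, hσ1, hc11, hε1', HT1⟩ := hT1' (Fintype.card (Lbl l m r K K1)) hM
  obtain ⟨-, hPat⟩ := hPAT l m r K K1 hl1 hm
  set N : ℝ := 2 * (m : ℝ) + 1 with hN
  set Λ : ℝ := 2 * (l : ℝ) + 1 with hΛ
  have hN0 : 0 < N := by positivity
  have hΛ0 : 0 < Λ := by positivity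
  set σ : ℝ := min σ1 (g / (200 * N)) with hσdef
  have hσ0 : 0 < σ := lt_min hσ1 (by positivity)
  set ε0 : ℝ := min ε1 (g / 200) with hε0def
  have hε00 : 0 < ε0 := lt_min hε1' (by positivity)
  refine ⟨σ, c11, ε0, d1 + 1, hσ0, hc11, hε00, ?_⟩
  intro V _ G d lab hd hBG hLab
  have hd1 : d1 ≤ d := by omega
  have hd0 : 0 < d := by omega
  have hdR : (0 : ℝ) < d := by exact_mod_cast hd0
  set q : ℝ := qe l d with hq
  have hqe : q = 2 * (d : ℝ) / Λ := by rw [hq, qe]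
  have hqn : ((2 : ℕ) : ℝ) * (1 / (2 * (l : ℝ) + 1)) * (d : ℝ) = q := by
    rw [hqe]; push_cast; rw [← hΛ]; ring
  have hq0 : 0 < q := by rw [hqe]; positivity
  have hσN : σ * N ≤ g / 200 := by
    have h1 : σ ≤ g / (200 * N) := min_le_right _ _
    calc σ * N ≤ g / (200 * N) * N := mul_le_mul_of_nonneg_right h1 hN0.le
      _ = g / 200 := by field_simp
  have hε0g : ε0 ≤ g / 200 := min_le_right _ _
  have hBG1 : BG g ε1 G d := hBG.mono (min_le_left _ _)
  have hBGg : BG g (g / 100) G d := hBG.mono (by linarith)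
  have hLab1 : LabP G d σ1 c11 lab := hLab.mono (min_le_left _ _) le_rfl
  have hcell := cell_deg hLab hBG hε0g hg hg1 hσN
  intro F U L C qq lg Oi hE hqq1 hqq2 hLU hcrit hconn hlgN hO
  obtain ⟨Y, hY1, hY2, hY3, hY4⟩ := HT1 (eP l m r K K1) (eR l)
    (1 / (2 * (l : ℝ) + 1)) G F d qq lab U ∅ L C hPat (by rw [ZMod.card]) rfl hd1 hBG1
    hLab1 (by rw [hqn]; exact hE) (by rw [hqn]; exact hqq1)
    (by rw [hqn]; exact hqq2) hLU hcrit hconn
  have hYpos : (0 : ℝ) < Y.card := lt_of_le_of_lt (by positivity) hY1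
  set y : ℝ := (Y.card : ℝ) with hy
  have hsd : ((C \ Y).card : ℝ) + ((Y \ C).card : ℝ) ≤ ε * y := by
    refine (near_all hY4).trans (le_of_eq ?_)
    rw [← hΛ]
    field_simp
  have hsd1 : (0 : ℝ) ≤ ((C \ Y).card : ℝ) := Nat.cast_nonneg _
  have hsd2 : (0 : ℝ) ≤ ((Y \ C).card : ℝ) := Nat.cast_nonneg _
  have hcv : (C.card : ℝ) ≤ (1 + ε) * y := by
    have : C ⊆ Y ∪ (C \ Y) := by
      intro v hv
      by_cases hvY : v ∈ Y
      · exact mem_union_left _ hvY
      · exact mem_union_right _ (mem_sdiff.mpr ⟨hv, hvY⟩)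
    have h2 : (C.card : ℝ) ≤ (Y.card : ℝ) + ((C \ Y).card : ℝ) := by
      exact_mod_cast (card_le_card this).trans (card_union_le _ _)
    linarith
  have hne : Nonempty (Lbl l m r K K1) := inferInstance
  have hx1 : y * (l / Λ - 2 * ε) ≤ ((C.filter (fun z => inW (lab z))).card : ℝ) := by
    have h1 := hY3 (bx univ (Wl l) univ univ univ univ)
    rw [den_W, card_univ_zmod, ← hN, ← hΛ, abs_le, div_self hN0.ne', one_mul] at h1
    have h2 : ((Y ∩ cl lab (bx univ (Wl l) univ univ univ univ)).card : ℝ) ≤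
        ((C.filter (fun z => inW (lab z))).card : ℝ) + ((Y \ C).card : ℝ) := by
      have : Y ∩ cl lab (bx univ (Wl l) univ univ univ univ) ⊆
          (C.filter (fun z => inW (lab z))) ∪ (Y \ C) := by
        intro v hv
        rw [mem_inter, mem_cl, mem_Wbx] at hv
        by_cases hvC : v ∈ C
        · exact mem_union_left _ (mem_filter.mpr ⟨hvC, hv.2.2⟩)
        · exact mem_union_right _ (mem_sdiff.mpr ⟨hv.1, hvC⟩)
      exact_mod_cast (card_le_card this).trans (card_union_le _ _)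
    have h4 : ε * (l / Λ) * (Y.card : ℝ) ≤ ε * y := by
      have h5 : (l : ℝ) / Λ ≤ 1 := by
        rw [div_le_one hΛ0, hΛ]
        have : (0 : ℝ) ≤ l := Nat.cast_nonneg _
        linarith
      calc ε * (l / Λ) * (Y.card : ℝ) = ε * y * (l / Λ) := by rw [hy]; ring
        _ ≤ ε * y * 1 := mul_le_mul_of_nonneg_left h5 (by positivity)
        _ = ε * y := mul_one _
    have h3 : (l : ℝ) / Λ * (Y.card : ℝ) = y * (l / Λ) := by rw [hy]; ring
    rw [h3] at h1
    have h6 : y * (l / Λ - 2 * ε) = y * (l / Λ) - ε * y - ε * y := by ring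
    rw [h6]
    linarith [h1.1]
  -- not deep
  have hb1 : ((C.filter (fun v => ¬ Deep g G d (2 * m + 1) (Vc lab (lab v).1) C v)).card : ℝ) ≤
      (1 + 2 * κ) * ε * y := by
    have hsub : C.filter (fun v => ¬ Deep g G d (2 * m + 1) (Vc lab (lab v).1) C v) ⊆
        (C \ Y) ∪ (univ : Finset (ZMod (2 * m + 1))).biUnion fun a =>
          (Y ∩ Vc lab a).filter (fun v => ¬ Deep g G d (2 * m + 1) (Vc lab a) C v) := by
      intro v hv
      obtain ⟨h1, h2⟩ := mem_filter.mp hv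
      by_cases hvY : v ∈ Y
      · refine mem_union_right _ (mem_biUnion.mpr ⟨(lab v).1, mem_univ _, mem_filter.mpr ⟨?_, h2⟩⟩)
        exact mem_inter.mpr ⟨hvY, mem_Vc.mpr rfl⟩
      · exact mem_union_left _ (mem_sdiff.mpr ⟨h1, hvY⟩)
    have h1 : ((C.filter (fun v => ¬ Deep g G d (2 * m + 1) (Vc lab (lab v).1) C v)).card : ℝ) ≤
        ((C \ Y).card : ℝ) + ∑ a : ZMod (2 * m + 1), (((Y ∩ Vc lab a).filter
          (fun v => ¬ Deep g G d (2 * m + 1) (Vc lab a) C v)).card : ℝ) := by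
      have h2 := (card_le_card hsub).trans ((card_union_le _ _).trans
        (Nat.add_le_add_left card_biUnion_le _))
      exact_mod_cast h2
    have h2 : ∀ a : ZMod (2 * m + 1), (((Y ∩ Vc lab a).filter
          (fun v => ¬ Deep g G d (2 * m + 1) (Vc lab a) C v)).card : ℝ) ≤
        κ * (ε * y / N + (((Y \ C) ∩ Vc lab a).card : ℝ)) := by
      intro a
      have h3 := deep_count (C := C) hd0 hε0.le hκ (fun v => hBG.deg v) a
        (fun v => (hcell a v).2) hY2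
      have h4 : (Y ∩ Vc lab a) \ C = (Y \ C) ∩ Vc lab a := by
        ext v
        simp only [mem_sdiff, mem_inter]
        tauto
      rw [h4, ← hN] at h3
      exact h3
    have h3 : ∑ a : ZMod (2 * m + 1), κ * (ε * y / N + (((Y \ C) ∩ Vc lab a).card : ℝ)) =
        κ * (ε * y + ((Y \ C).card : ℝ)) := by
      rw [← mul_sum, sum_add_distrib, sum_const, nsmul_eq_mul, card_univ_zmod, ← hN]
      have h4 := sum_cells lab (Y \ C)
      have h5 : (∑ a : ZMod (2 * m + 1), (((Y \ C) ∩ Vc lab a).card : ℝ)) = ((Y \ C).card : ℝ) := by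
        exact_mod_cast h4
      rw [h5]
      congr 2
      field_simp
    have h4 := sum_le_sum (s := univ) fun a _ => h2 a
    rw [h3] at h4
    have h5 : κ * (ε * y + ((Y \ C).card : ℝ)) ≤ κ * (ε * y + ε * y) :=
      mul_le_mul_of_nonneg_left (by linarith) hκ0.le
    nlinarith
  -- used and deep
  have hb2 : (2 + g / 2) * ((C.filter (fun v => Deep g G d (2 * m + 1) (Vc lab (lab v).1) C v ∧
      ∃ a, ∃ i < lg, v ∈ Oi a i)).card : ℝ) ≤ (C.card : ℝ) := by
    have hsub : C.filter (fun v => Deep g G d (2 * m + 1) (Vc lab (lab v).1) C v ∧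
        ∃ a, ∃ i < lg, v ∈ Oi a i) ⊆ (univ : Finset (ZMod (2 * m + 1))).biUnion fun a =>
          (C ∩ Vc lab a).filter (fun z => Deep g G d (2 * m + 1) (Vc lab a) C z ∧
            ∃ i < lg, z ∈ Oi a i) := by
      intro v hv
      obtain ⟨h1, h2, a, i, hi, h3⟩ := mem_filter.mp hv
      obtain ⟨Cs', -, h4, -⟩ := hO a i hi
      have h5 : v ∈ Vc lab a := (h4 v h3).1
      have h6 : (lab v).1 = a := mem_Vc.mp h5
      subst h6
      exact mem_biUnion.mpr ⟨_, mem_univ _, mem_filter.mpr ⟨mem_inter.mpr ⟨h1, h5⟩, h2, i, hi, h3⟩⟩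
    have h1 : ((C.filter (fun v => Deep g G d (2 * m + 1) (Vc lab (lab v).1) C v ∧
        ∃ a, ∃ i < lg, v ∈ Oi a i)).card : ℝ) ≤ ∑ a : ZMod (2 * m + 1),
        (((C ∩ Vc lab a).filter (fun z => Deep g G d (2 * m + 1) (Vc lab a) C z ∧
            ∃ i < lg, z ∈ Oi a i)).card : ℝ) := by
      have h2 := (card_le_card hsub).trans card_biUnion_le
      exact_mod_cast h2
    have h2 : (∑ a : ZMod (2 * m + 1), ((C ∩ Vc lab a).card : ℝ)) = (C.card : ℝ) := by
      exact_mod_cast sum_cells lab C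
    calc _ ≤ (2 + g / 2) * ∑ a : ZMod (2 * m + 1),
        (((C ∩ Vc lab a).filter (fun z => Deep g G d (2 * m + 1) (Vc lab a) C z ∧
            ∃ i < lg, z ∈ Oi a i)).card : ℝ) := mul_le_mul_of_nonneg_left h1 (by positivity)
      _ = ∑ a : ZMod (2 * m + 1), (2 + g / 2) *
        (((C ∩ Vc lab a).filter (fun z => Deep g G d (2 * m + 1) (Vc lab a) C z ∧
            ∃ i < lg, z ∈ Oi a i)).card : ℝ) := by rw [mul_sum]
      _ ≤ ∑ a : ZMod (2 * m + 1), ((C ∩ Vc lab a).card : ℝ) := by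
          refine sum_le_sum fun a _ => ?_
          exact used_deep hGROW hg hg1 G d (2 * m + 1) (by omega) hd0 hBGg (Vc lab a) C
            (fun v => (hcell a v).1) lg (Oi a) hlgN (hO a)
      _ = _ := h2
  -- conclusion
  have hsum : ((C.filter (fun z => inW (lab z))).card : ℝ) ≤
      ((C.filter (fun v => inW (lab v) ∧ ∀ a, ∀ i < lg, v ∉ Oi a i)).card : ℝ) +
      ((C.filter (fun v => ¬ Deep g G d (2 * m + 1) (Vc lab (lab v).1) C v)).card : ℝ) +
      ((C.filter (fun v => Deep g G d (2 * m + 1) (Vc lab (lab v).1) C v ∧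
        ∃ a, ∃ i < lg, v ∈ Oi a i)).card : ℝ) := by
    have hsub : C.filter (fun z => inW (lab z)) ⊆
        ((C.filter (fun v => inW (lab v) ∧ ∀ a, ∀ i < lg, v ∉ Oi a i)) ∪
        (C.filter (fun v => ¬ Deep g G d (2 * m + 1) (Vc lab (lab v).1) C v))) ∪
        (C.filter (fun v => Deep g G d (2 * m + 1) (Vc lab (lab v).1) C v ∧
          ∃ a, ∃ i < lg, v ∈ Oi a i)) := by
      intro v hv
      obtain ⟨h1, h2⟩ := mem_filter.mp hv
      by_cases hD : Deep g G d (2 * m + 1) (Vc lab (lab v).1) C v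
      · by_cases hu : ∃ a, ∃ i < lg, v ∈ Oi a i
        · exact mem_union_right _ (mem_filter.mpr ⟨h1, hD, hu⟩)
        · push Not at hu
          exact mem_union_left _ (mem_union_left _ (mem_filter.mpr ⟨h1, h2, hu⟩))
      · exact mem_union_left _ (mem_union_right _ (mem_filter.mpr ⟨h1, hD⟩))
    have h1 := (card_le_card hsub).trans ((card_union_le _ _).trans
      (Nat.add_le_add_right (card_union_le _ _) _))
    exact_mod_cast h1
  exact final_ineq2 hg hg1 hκ0 hε0.le hε1 hlg hΛ0 hx1 hb1 (Nat.cast_nonneg _) hb2 hcv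
    (Nat.cast_nonneg _) hsum

end Pool.Agent.Work.MP_db9399_bg.helper83
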