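import Pool.Agent.Work.MP_db9399_bg_helper83.Env0

/-! THEOREM BIG, block RND1: one round (helper83). -/

set_option autoImplicit false

namespace Pool.Agent.Work.MP_db9399_bg.helper83

open Finset Classical
open Pool.Agent.Work.MP_db9399_bg
open Pool.Agent.Work.MP_db9399_all (nb)
open Pool.Agent.Work.MP_db9399_px (LWalk hit ee)
open Pool.Agent.Work.MP_db9399_dn (NB IsMat Tot)
open Pool.Agent.Work.MP_db9399_sc (cut Crit Conn Env Fam Rnd Hv)

universe u

section
variable {V : Type u} [Fintype V] {l m r K K1 : ℕ}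

theorem mem_rP0 {a : ZMod (2 * m + 1)} {h : Fin m} {lam : ZMod (2 * l + 1)}
    {t : Lbl l m r K K1} : t ∈ rP l r K K1 a h (0, lam) ↔ t.1 = a ∧ t.2.1 = lam := by
  unfold rP
  rw [mem_bx]
  simp [c3f]

/-- symmetric difference inside the cell `a` -/
theorem near_cell {lab : V → Lbl l m r K K1} {a : ZMod (2 * m + 1)} {h : Fin m}
    {C Y : Finset V} {x : ℝ}
    (hn : ∀ b, Near (C ∩ cl lab (rP l r K K1 a h b)) (Y ∩ cl lab (rP l r K K1 a h b)) x) :
    (((C ∩ Vc lab a) \ Y).card : ℝ) + (((Y ∩ Vc lab a) \ C).card : ℝ) ≤ (2 * l + 1) * x := by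
  have key : ∀ X Z : Finset V, ((X ∩ Vc lab a) \ Z).card ≤
      ∑ lam : ZMod (2 * l + 1), ((X ∩ cl lab (rP l r K K1 a h (0, lam))) \
        (Z ∩ cl lab (rP l r K K1 a h (0, lam)))).card := by
    intro X Z
    have hsub : (X ∩ Vc lab a) \ Z ⊆ (univ : Finset (ZMod (2 * l + 1))).biUnion fun lam =>
        (X ∩ cl lab (rP l r K K1 a h (0, lam))) \ (Z ∩ cl lab (rP l r K K1 a h (0, lam))) := by
      intro v hv
      rw [mem_sdiff, mem_inter, mem_Vc] at hv
      refine mem_biUnion.mpr ⟨(lab v).2.1, mem_univ _, ?_⟩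
      rw [mem_sdiff, mem_inter, mem_inter, mem_cl, mem_rP0]
      exact ⟨⟨hv.1.1, hv.1.2, rfl⟩, fun h => hv.2 h.1⟩
    exact (card_le_card hsub).trans card_biUnion_le
  have h1 := key C Y
  have h2 := key Y C
  have h3 : ∀ lam : ZMod (2 * l + 1),
      (((C ∩ cl lab (rP l r K K1 a h (0, lam))) \
        (Y ∩ cl lab (rP l r K K1 a h (0, lam)))).card : ℝ) +
      (((Y ∩ cl lab (rP l r K K1 a h (0, lam))) \
        (C ∩ cl lab (rP l r K K1 a h (0, lam)))).card : ℝ) ≤ x := fun lam => hn (0, lam)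
  calc (((C ∩ Vc lab a) \ Y).card : ℝ) + (((Y ∩ Vc lab a) \ C).card : ℝ)
      ≤ (∑ lam : ZMod (2 * l + 1), (((C ∩ cl lab (rP l r K K1 a h (0, lam))) \
        (Y ∩ cl lab (rP l r K K1 a h (0, lam)))).card : ℝ)) +
        ∑ lam : ZMod (2 * l + 1), (((Y ∩ cl lab (rP l r K K1 a h (0, lam))) \
        (C ∩ cl lab (rP l r K K1 a h (0, lam)))).card : ℝ) := by
        have h1' : (((C ∩ Vc lab a) \ Y).card : ℝ) ≤ ∑ lam : ZMod (2 * l + 1),
          (((C ∩ cl lab (rP l r K K1 a h (0, lam))) \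
            (Y ∩ cl lab (rP l r K K1 a h (0, lam)))).card : ℝ) := by exact_mod_cast h1
        have h2' : (((Y ∩ Vc lab a) \ C).card : ℝ) ≤ ∑ lam : ZMod (2 * l + 1),
          (((Y ∩ cl lab (rP l r K K1 a h (0, lam))) \
            (C ∩ cl lab (rP l r K K1 a h (0, lam)))).card : ℝ) := by exact_mod_cast h2
        exact add_le_add h1' h2'
    _ = ∑ lam : ZMod (2 * l + 1), ((((C ∩ cl lab (rP l r K K1 a h (0, lam))) \
        (Y ∩ cl lab (rP l r K K1 a h (0, lam)))).card : ℝ) +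
        (((Y ∩ cl lab (rP l r K K1 a h (0, lam))) \
        (C ∩ cl lab (rP l r K K1 a h (0, lam)))).card : ℝ)) := by rw [sum_add_distrib]
    _ ≤ ∑ _lam : ZMod (2 * l + 1), x := sum_le_sum fun lam _ => h3 lam
    _ = (2 * l + 1) * x := by
        rw [sum_const, nsmul_eq_mul, card_univ_zmod]

/-- number of vertices of `Y` in the cell `a` which are not deep in `C` -/
theorem deep_count {g ε κ : ℝ} {G : SimpleGraph V} {d : ℕ} (hd : 0 < d) (hε : 0 ≤ ε)
    (hκ : ∀ {V : Type u} [Fintype V] (G : SimpleGraph V) (d N : ℕ)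
      (Vg Y C : Finset V) (ε : ℝ), 0 < N → 0 < d → 0 ≤ ε → (∀ v, (nb G v).card ≤ d) →
      (∀ v, ((nb G v ∩ Vg).card : ℝ) ≤ 2 * d / N) →
      ee G Y (univ \ Y) ≤ ε * d * Y.card → ee G (Y ∩ Vg) (univ \ Y) ≤ ε * (d / N) * Y.card →
      ee G Y (Vg \ Y) ≤ ε * (d / N) * Y.card →
      ee G (Y ∩ Vg) (Vg \ Y) ≤ ε * (d / (N : ℝ) ^ 2) * Y.card →
      (((Y ∩ Vg).filter (fun v => ¬ Deep g G d N Vg C v)).card : ℝ) ≤
        κ * (ε * Y.card / N + (((Y ∩ Vg) \ C).card : ℝ)))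
    {lab : V → Lbl l m r K K1} {Y C : Finset V} (hdeg : ∀ v, (nb G v).card ≤ d)
    (a : ZMod (2 * m + 1))
    (hcell : ∀ v, ((nb G v ∩ Vc lab a).card : ℝ) ≤ 2 * d / ((2 * m + 1 : ℕ) : ℝ))
    (hee : ∀ P' Q' : Finset (Lbl l m r K K1),
      ee G (Y ∩ cl lab P') (cl lab Q' \ Y) ≤ ε * (den P' * den Q') * d * Y.card) :
    (((Y ∩ Vc lab a).filter (fun v => ¬ Deep g G d (2 * m + 1) (Vc lab a) C v)).card : ℝ) ≤
      κ * (ε * Y.card / (2 * (m : ℝ) + 1) + (((Y ∩ Vc lab a) \ C).card : ℝ)) := by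
  have hne : Nonempty (Lbl l m r K K1) := inferInstance
  have h00 := hee univ univ
  have h10 := hee (bx {a} univ univ univ univ univ) univ
  have h01 := hee univ (bx {a} univ univ univ univ univ)
  have h11 := hee (bx {a} univ univ univ univ univ) (bx {a} univ univ univ univ univ)
  rw [cl_univ, den_univ', inter_univ] at h00
  rw [cl_univ, ← Vc_eq, den_univ', den_cell] at h10
  rw [cl_univ, ← Vc_eq, den_univ', den_cell, inter_univ] at h01
  rw [← Vc_eq, den_cell] at h11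
  have hN : (0 : ℝ) < 2 * (m : ℝ) + 1 := by positivity
  have := hκ G d (2 * m + 1) (Vc lab a) Y C ε (by omega) hd hε hdeg hcell
    (by linarith) (by push_cast; refine h10.trans (le_of_eq ?_); ring)
    (by push_cast; refine h01.trans (le_of_eq ?_); ring)
    (by push_cast; refine h11.trans (le_of_eq ?_); field_simp)
  push_cast at this
  exact this

end

theorem stmt_RND1 (hSXP : Stmt_SXP.{u}) (hSXR : Stmt_SXR.{u}) (hT1 : Stmt_T1.{u})
    (hPAT : Stmt_PAT) (hGROW : Stmt_GROW.{u}) (hDEEPF : Stmt_DEEPF.{u}) (hHIT2 : Stmt_HIT2.{u})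
    (hTUT2 : Stmt_TUT2.{u}) : Stmt_RND1.{u} := by
  intro g hg hg1
  obtain ⟨κ, hκ0, hκ⟩ := hDEEPF g hg
  set ε : ℝ := g / (40 * (4 + 2 * κ)) with hεdef
  have hε0 : 0 < ε := by positivity
  have hε1 : ε * (4 + 2 * κ) ≤ g / 40 := by
    rw [hεdef]
    have : (4 + 2 * κ) ≠ 0 := by positivity
    field_simp
    exact le_rfl
  refine ⟨⌈100 / g⌉₊ + 1, ?_⟩
  intro l hl
  have hl1 : 1 ≤ l := by omega
  have hlg : 200 ≤ g * (2 * (l : ℝ) + 1) := by
    have h1 : (100 / g : ℝ) ≤ l := by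
      have h2 : ((⌈100 / g⌉₊ : ℕ) : ℝ) ≤ l := by
        exact_mod_cast (show ⌈100 / g⌉₊ ≤ l by omega)
      exact (Nat.le_ceil _).trans h2
    rw [div_le_iff₀ hg] at h1
    nlinarith
  obtain ⟨δ1, hδ1, hT1'⟩ := hT1 g ε 4 (3 * (2 * l + 1)) (2 * l + 1) hg hε0
  obtain ⟨cS, hcS0, hcS1, hSXP'⟩ := hSXP g 4 (3 * (2 * l + 1)) (2 * l + 1) hg
  set c : ℝ := min (cS / 8) (1 / 100) with hc
  have hc0 : 0 < c := lt_min (by positivity) (by norm_num)
  obtain ⟨δ2, dT, hδ2, hTUT⟩ := hTUT2 c hc0 (min_le_right _ _)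
  obtain ⟨dH, hHIT⟩ := hHIT2
  set δ : ℝ := min (min δ1 (δ2 / 10)) (min (cS / 100) (1 / 100000)) with hδdef
  have hδ0 : 0 < δ := lt_min (lt_min hδ1 (by positivity)) (lt_min (by positivity) (by norm_num))
  have hδa : δ ≤ δ1 := (min_le_left _ _).trans (min_le_left _ _)
  have hδb : δ ≤ δ2 / 10 := (min_le_left _ _).trans (min_le_right _ _)
  have hδc : δ ≤ cS / 100 := (min_le_right _ _).trans (min_le_left _ _)
  have hδd : δ ≤ 1 / 100000 := (min_le_right _ _).trans (min_le_right _ _)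
  refine ⟨δ, hδ0, ?_⟩
  intro m r K K1 hm
  have hM : 0 < Fintype.card (Lbl l m r K K1) := by rw [card_Lbl]; positivity
  obtain ⟨σ1, c11, ε1, d1, hσ1, hc11, hε1', HT1⟩ := hT1' (Fintype.card (Lbl l m r K K1)) hM
  obtain ⟨σ2, c12, ε2, d2, hσ2, hc12, hε2', HSX⟩ := hSXP' (Fintype.card (Lbl l m r K K1)) hM
  obtain ⟨hPat, -⟩ := hPAT l m r K K1 hl1 hm
  set N : ℝ := 2 * (m : ℝ) + 1 with hN
  set Λ : ℝ := 2 * (l : ℝ) + 1 with hΛ
  have hN0 : 0 < N := by positivity
  have hΛ0 : 0 < Λ := by positivity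
  have hN1 : 1 ≤ N := by rw [hN]; have : (0 : ℝ) ≤ m := Nat.cast_nonneg _; linarith
  have hΛ1 : 1 ≤ Λ := by rw [hΛ]; have : (0 : ℝ) ≤ l := Nat.cast_nonneg _; linarith
  -- the constants
  set σ : ℝ := min (min σ1 σ2) (min (δ * (4 / (N * Λ))) (g / (200 * N))) with hσdef
  have hσ0 : 0 < σ := lt_min (lt_min hσ1 hσ2) (lt_min (by positivity) (by positivity))
  set ε0 : ℝ := min (min ε1 ε2) (min δ (g / 200)) with hε0def
  have hε00 : 0 < ε0 := lt_min (lt_min hε1' hε2') (lt_min hδ0 (by positivity))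
  obtain ⟨D0, hD0⟩ : ∃ D0 : ℕ, (2500 + 10 / δ2 + dH + dT) * (N * Λ) ≤ (D0 : ℝ) :=
    ⟨⌈(2500 + 10 / δ2 + dH + dT) * (N * Λ)⌉₊, Nat.le_ceil _⟩
  refine ⟨σ, min c11 c12, ε0, max (max d1 d2) (D0 + 1), hσ0, lt_min hc11 hc12, hε00, ?_⟩
  intro V _ G d lab hd hBG hLab
  have hd1 : d1 ≤ d := (le_max_left _ _).trans ((le_max_left _ _).trans hd)
  have hd2 : d2 ≤ d := (le_max_right _ _).trans ((le_max_left _ _).trans hd)
  have hdD : D0 + 1 ≤ d := (le_max_right _ _).trans hd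
  have hd0 : 0 < d := by omega
  have hdR : (0 : ℝ) < d := by exact_mod_cast hd0
  have hDd : (D0 : ℝ) ≤ d := by exact_mod_cast (by omega : D0 ≤ d)
  -- the typical degree
  set q : ℝ := qr l m d with hq
  have hqe : q = 4 * (d : ℝ) / (N * Λ) := by rw [hq, qr]
  have hNΛ : 0 < N * Λ := by positivity
  have hq0 : 0 < q := by rw [hqe]; positivity
  have hqn : ((4 : ℕ) : ℝ) * (1 / ((2 * (m : ℝ) + 1) * (2 * (l : ℝ) + 1))) * (d : ℝ) = q := by
    rw [hqe]; push_cast; rw [← hN, ← hΛ]; field_simp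
  have hqbig : 4 * (2500 + 10 / δ2 + dH + dT) ≤ q := by
    rw [hqe, le_div_iff₀ hNΛ]
    linarith
  have hδ2i : 0 < 10 / δ2 := by positivity
  have hdH0 : (0 : ℝ) ≤ dH := Nat.cast_nonneg _
  have hdT0 : (0 : ℝ) ≤ dT := Nat.cast_nonneg _
  have hσq : σ * d ≤ δ * q := by
    have h1 : σ ≤ δ * (4 / (N * Λ)) := (min_le_right _ _).trans (min_le_left _ _)
    calc σ * d ≤ δ * (4 / (N * Λ)) * d := mul_le_mul_of_nonneg_right h1 hdR.le
      _ = δ * q := by rw [hqe]; ring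
  have hσN : σ * N ≤ g / 200 := by
    have h1 : σ ≤ g / (200 * N) := (min_le_right _ _).trans (min_le_right _ _)
    calc σ * N ≤ g / (200 * N) * N := mul_le_mul_of_nonneg_right h1 hN0.le
      _ = g / 200 := by field_simp
  have hε0δ : ε0 ≤ δ := (min_le_right _ _).trans (min_le_left _ _)
  have hε0g : ε0 ≤ g / 200 := (min_le_right _ _).trans (min_le_right _ _)
  have hBG1 : BG g ε1 G d := hBG.mono ((min_le_left _ _).trans (min_le_left _ _))
  have hBG2 : BG g ε2 G d := hBG.mono ((min_le_left _ _).trans (min_le_right _ _))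
  have hBGg : BG g (g / 100) G d := hBG.mono (by linarith)
  have hLab1 : LabP G d σ1 c11 lab :=
    hLab.mono ((min_le_left _ _).trans (min_le_left _ _)) (min_le_left _ _)
  have hLab2 : LabP G d σ2 c12 lab :=
    hLab.mono ((min_le_left _ _).trans (min_le_right _ _)) (min_le_right _ _)
  have hcell := cell_deg hLab hBG hε0g hg hg1 hσN
  intro F a h U J lg Oi hE hlgN hO
  -- restriction to U
  have hPa := hPat a h
  have hE' := REnv.restrict hE
  set F' : SimpleGraph V := Fr F U with hF'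
  have hE'' : REnv G F' (((4 : ℕ) : ℝ) * (1 / ((2 * (m : ℝ) + 1) * (2 * (l : ℝ) + 1))) * (d : ℝ)) δ
      lab (rP l r K K1 a h) (rR l) U J := by rw [hqn]; exact hE'
  have hdegs := env_deg hPa hLab hBG hE'' (by rw [hqn]; exact hσq) hε0δ hδ0.le
  rw [hqn] at hdegs
  obtain ⟨qq, hqq1, hqq2⟩ : ∃ qq : ℕ, (1 + 3 * δ) * q ≤ qq ∧ (qq : ℝ) < (1 + 3 * δ) * q + 1 :=
    ⟨⌈(1 + 3 * δ) * q⌉₊, Nat.le_ceil _, Nat.ceil_lt_add_one (by positivity)⟩
  have hδq : 0 < δ * q := by positivity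
  have hδq1 : δ * q ≤ 1 / 100000 * q := mul_le_mul_of_nonneg_right hδd hq0.le
  have hδq2 : δ * q ≤ δ2 / 10 * q := mul_le_mul_of_nonneg_right hδb hq0.le
  have hqqq : q ≤ qq := by linarith
  have hqq3 : (qq : ℝ) ≤ 101 / 100 * q := by linarith
  have hdeg' : ∀ v, (nb F' v).card ≤ qq := by
    intro v
    by_cases hv : v ∈ U
    · have h1 := (hdegs v hv).2
      have h2 : nb F' v ∩ U = nb F' v := by
        rw [hF', nb_Fr F hv, inter_assoc, inter_self]
      rw [h2] at h1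
      have h3 : ((nb F' v).card : ℝ) ≤ qq := by linarith
      exact_mod_cast h3
    · rw [hF', nb_Fr' F hv]; simp
  have hEnv : Env F' F' qq U U := by
    refine ⟨le_rfl, hdeg', Subset.refl _, ?_⟩
    intro v hv
    have h1 := (hdegs v hv).1
    have h2 : (999 : ℝ) * qq ≤ 1000 * ((nb F' v ∩ U).card : ℝ) := by linarith
    exact_mod_cast h2
  have hdHq : dH ≤ qq := by
    have : (dH : ℝ) ≤ qq := by linarith
    exact_mod_cast this
  have hdTq : dT ≤ qq := by
    have : (dT : ℝ) ≤ qq := by linarith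
    exact_mod_cast this
  obtain ⟨Cs, hFam, hCs⟩ := hHIT F' qq U U hdHq hEnv
  -- the exceptional vertices
  have hcardβ : Fintype.card (Fin 3 × ZMod (2 * l + 1)) ≤ 3 * (2 * l + 1) := by
    rw [Fintype.card_prod, Fintype.card_fin, ZMod.card]
  have hex : ∀ C ∈ Cs, ∃ z ∈ C, (lab z).1 = a ∧ inW (lab z) ∧
      Deep g G d (2 * m + 1) (Vc lab a) C z ∧ Ok F' U C z ∧ ∀ i < lg, z ∉ Oi i := by
    intro C hC
    have hcrit := hFam.crit C hC
    have hconn := hFam.conn C hC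
    obtain ⟨Y, hY1, hY2, hY3, hY4⟩ := HT1 (rP l r K K1 a h) (rR l)
      (1 / ((2 * (m : ℝ) + 1) * (2 * (l : ℝ) + 1))) G F' d qq lab U J U C hPa hcardβ rfl hd1 hBG1
      hLab1 (hE''.mono (by rw [hqn]; exact hq0.le) hδa) (by rw [hqn]; exact hqqq)
      (by rw [hqn]; exact hqq3) (Subset.refl _) hcrit hconn
    have hYpos : (0 : ℝ) < Y.card := lt_of_le_of_lt (by positivity) hY1
    set t : ℝ := Y.card / N with ht
    have ht0 : 0 < t := by positivity
    have hnear := near_cell hY4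
    have hsd : (((C ∩ Vc lab a) \ Y).card : ℝ) + (((Y ∩ Vc lab a) \ C).card : ℝ) ≤ ε * t := by
      refine hnear.trans (le_of_eq ?_)
      rw [ht, ← hN, ← hΛ]
      field_simp
    have hsd1 : (0 : ℝ) ≤ (((C ∩ Vc lab a) \ Y).card : ℝ) := Nat.cast_nonneg _
    have hsd2 : (0 : ℝ) ≤ (((Y ∩ Vc lab a) \ C).card : ℝ) := Nat.cast_nonneg _
    -- sizes
    have hcv : ((C ∩ Vc lab a).card : ℝ) ≤ (1 + 2 * ε) * t := by
      have h1 := hY3 (bx {a} univ univ univ univ univ)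
      rw [← Vc_eq, den_cell, ← hN, abs_le] at h1
      have h2 : ((C ∩ Vc lab a).card : ℝ) ≤ ((Y ∩ Vc lab a).card : ℝ) +
          (((C ∩ Vc lab a) \ Y).card : ℝ) := by
        have : C ∩ Vc lab a ⊆ (Y ∩ Vc lab a) ∪ ((C ∩ Vc lab a) \ Y) := by
          intro v hv
          by_cases hvY : v ∈ Y
          · exact mem_union_left _ (mem_inter.mpr ⟨hvY, (mem_inter.mp hv).2⟩)
          · exact mem_union_right _ (mem_sdiff.mpr ⟨hv, hvY⟩)
        exact_mod_cast (card_le_card this).trans (card_union_le _ _)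
      have h3 : 1 / N * (Y.card : ℝ) = t := by rw [ht]; ring
      have h4 : ε * (1 / N) * (Y.card : ℝ) = ε * t := by rw [ht]; ring
      rw [h3, h4] at h1
      linarith [h1.2]
    have hx1 : t * (l / Λ - 2 * ε) ≤
        ((C.filter (fun z => (lab z).1 = a ∧ inW (lab z))).card : ℝ) := by
      have h1 := hY3 (bx {a} (Wl l) univ univ univ univ)
      rw [den_W, ← hN, ← hΛ, abs_le] at h1
      have h2 : ((Y ∩ cl lab (bx {a} (Wl l) univ univ univ univ)).card : ℝ) ≤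
          ((C.filter (fun z => (lab z).1 = a ∧ inW (lab z))).card : ℝ) +
          (((Y ∩ Vc lab a) \ C).card : ℝ) := by
        have : Y ∩ cl lab (bx {a} (Wl l) univ univ univ univ) ⊆
            (C.filter (fun z => (lab z).1 = a ∧ inW (lab z))) ∪ ((Y ∩ Vc lab a) \ C) := by
          intro v hv
          rw [mem_inter, mem_cl, mem_Wbx, mem_singleton] at hv
          by_cases hvC : v ∈ C
          · exact mem_union_left _ (mem_filter.mpr ⟨hvC, hv.2⟩)
          · exact mem_union_right _ (mem_sdiff.mpr ⟨mem_inter.mpr ⟨hv.1, mem_Vc.mpr hv.2.1⟩, hvC⟩)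
        exact_mod_cast (card_le_card this).trans (card_union_le _ _)
      have hc1 : (({a} : Finset (ZMod (2 * m + 1))).card : ℝ) = 1 := by simp
      rw [hc1] at h1
      have h3 : 1 / N * (l / Λ) * (Y.card : ℝ) = t * (l / Λ) := by rw [ht]; ring
      have h4 : ε * (1 / N * (l / Λ)) * (Y.card : ℝ) ≤ ε * t := by
        have h5 : (l : ℝ) / Λ ≤ 1 := by
          rw [div_le_one hΛ0, hΛ]
          have : (0 : ℝ) ≤ l := Nat.cast_nonneg _
          linarith
        calc ε * (1 / N * (l / Λ)) * (Y.card : ℝ) = ε * t * (l / Λ) := by rw [ht]; ring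
          _ ≤ ε * t * 1 := mul_le_mul_of_nonneg_left h5 (by positivity)
          _ = ε * t := mul_one _
      rw [h3] at h1
      have h6 : t * (l / Λ - 2 * ε) = t * (l / Λ) - ε * t - ε * t := by ring
      rw [h6]
      linarith [h1.1]
    -- not deep
    have hb1 : (((C ∩ Vc lab a).filter
        (fun v => ¬ Deep g G d (2 * m + 1) (Vc lab a) C v)).card : ℝ) ≤ (1 + 2 * κ) * ε * t := by
      have h1 := not_deep (Deep g G d (2 * m + 1) (Vc lab a) C) (Vc lab a) Y C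
      have h2 := deep_count (C := C) hd0 hε0.le hκ (fun v => hBG.deg v) a
        (fun v => (hcell a v).2) hY2
      rw [← hN] at h2
      have h3 : ε * (Y.card : ℝ) / N = ε * t := by rw [ht]; ring
      rw [h3] at h2
      have h4 : κ * (ε * t + (((Y ∩ Vc lab a) \ C).card : ℝ)) ≤ κ * (ε * t + ε * t) :=
        mul_le_mul_of_nonneg_left (by linarith) hκ0.le
      nlinarith
    -- used and deep
    have hb2 := used_deep hGROW hg hg1 G d (2 * m + 1) (by omega) hd0 hBGg (Vc lab a) C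
      (fun v => (hcell a v).1) lg Oi hlgN hO
    -- not Ok
    have hb3 : ((C.filter (fun z => ¬ Ok F' U C z)).card : ℝ) ≤ 4 * t / Λ := by
      have h1 := notOk_card F' U C qq ((1 - 3 * δ) * q) (fun v hv => (hdegs v hv).1) hcrit.1
        hcrit.2.2 (by linarith)
      have h2 : (5 : ℝ) * cut F' U C < 7 * qq := by exact_mod_cast hcrit.2.2
      have h3 : ((C.filter (fun z => ¬ Ok F' U C z)).card : ℝ) ≤ 4 + cut F' U C := by
        exact_mod_cast h1
      have h4 : 2 * q ≤ 4 * t / Λ := by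
        rw [hqe, ht]
        have h5 : 2 * (d : ℝ) ≤ Y.card := by
          have : 0 ≤ g * d := by positivity
          linarith
        calc 2 * (4 * (d : ℝ) / (N * Λ)) = 4 * (2 * (d : ℝ) / N) / Λ := by field_simp
          _ ≤ _ := by
            refine div_le_div_of_nonneg_right ?_ hΛ0.le
            exact mul_le_mul_of_nonneg_left (div_le_div_of_nonneg_right h5 hN0.le) (by norm_num)
      linarith
    have hfin := final_ineq (x1 := ((C.filter (fun z => (lab z).1 = a ∧ inW (lab z))).card : ℝ))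
      (b1 := (((C ∩ Vc lab a).filter
        (fun v => ¬ Deep g G d (2 * m + 1) (Vc lab a) C v)).card : ℝ))
      (b2 := (((C ∩ Vc lab a).filter (fun z => Deep g G d (2 * m + 1) (Vc lab a) C z ∧
        ∃ i < lg, z ∈ Oi i)).card : ℝ))
      (b3 := ((C.filter (fun z => ¬ Ok F' U C z)).card : ℝ))
      ht0 hg hg1 hκ0 hε0.le hε1 hlg hΛ0 hx1 hb1 (Nat.cast_nonneg _) hb2 hcv hb3
    by_contra hno
    push Not at hno
    have hsub : C.filter (fun z => (lab z).1 = a ∧ inW (lab z)) ⊆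
        (((C ∩ Vc lab a).filter (fun v => ¬ Deep g G d (2 * m + 1) (Vc lab a) C v)) ∪
        ((C ∩ Vc lab a).filter (fun z => Deep g G d (2 * m + 1) (Vc lab a) C z ∧
          ∃ i < lg, z ∈ Oi i))) ∪ (C.filter (fun z => ¬ Ok F' U C z)) := by
      intro z hz
      obtain ⟨hzC, hza, hzW⟩ := mem_filter.mp hz
      have hzV : z ∈ C ∩ Vc lab a := mem_inter.mpr ⟨hzC, mem_Vc.mpr hza⟩
      by_cases hD : Deep g G d (2 * m + 1) (Vc lab a) C z
      · by_cases hOk : Ok F' U C z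
        · obtain ⟨i, hi, hi2⟩ := hno z hzC hza hzW hD hOk
          exact mem_union_left _ (mem_union_right _ (mem_filter.mpr ⟨hzV, hD, i, hi, hi2⟩))
        · exact mem_union_right _ (mem_filter.mpr ⟨hzC, hOk⟩)
      · exact mem_union_left _ (mem_union_left _ (mem_filter.mpr ⟨hzV, hD⟩))
    have h7 := (card_le_card hsub).trans (card_union_le _ _)
    have h8 := card_union_le ((C ∩ Vc lab a).filter
        (fun v => ¬ Deep g G d (2 * m + 1) (Vc lab a) C v))
        ((C ∩ Vc lab a).filter (fun z => Deep g G d (2 * m + 1) (Vc lab a) C z ∧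
          ∃ i < lg, z ∈ Oi i))
    have h9 : ((C.filter (fun z => (lab z).1 = a ∧ inW (lab z))).card : ℝ) ≤
        (((C ∩ Vc lab a).filter
        (fun v => ¬ Deep g G d (2 * m + 1) (Vc lab a) C v)).card : ℝ) +
        (((C ∩ Vc lab a).filter (fun z => Deep g G d (2 * m + 1) (Vc lab a) C z ∧
        ∃ i < lg, z ∈ Oi i)).card : ℝ) + ((C.filter (fun z => ¬ Ok F' U C z)).card : ℝ) := by
      exact_mod_cast h7.trans (Nat.add_le_add_right h8 _)
    linarith
  -- choice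
  choose f hf using hex
  set O : Finset V := Cs.attach.image (fun C => f C.1 C.2) with hOdef
  have hOmem : ∀ z ∈ O, ∃ (C : Finset V) (hC : C ∈ Cs), f C hC = z := by
    intro z hz
    obtain ⟨C, -, h1⟩ := mem_image.mp hz
    exact ⟨C.1, C.2, h1⟩
  have hOf : ∀ (C : Finset V) (hC : C ∈ Cs), f C hC ∈ O := fun C hC =>
    mem_image.mpr ⟨⟨C, hC⟩, mem_attach _ _, rfl⟩
  have hen : ∀ A B : Finset V, Disjoint A B → A ⊆ U → B ⊆ U →
      c * qq * ((A.card : ℝ) + B.card) ≤ en F' U A B := by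
    intro A B hAB hA hB
    have h1 := hSXR (rP l r K K1 a h) (rR l) 4 (2 * l + 1)
      (1 / ((2 * (m : ℝ) + 1) * (2 * (l : ℝ) + 1))) cS δ q G F' lab U J hPa hcS0 hcS1 hδ0.le hδc
      hq0.le (by
        intro A B h1 h2
        have h3 := HSX (rP l r K K1 a h) (rR l)
          (1 / ((2 * (m : ℝ) + 1) * (2 * (l : ℝ) + 1))) G d lab A B hPa hcardβ rfl hd2 hBG2 hLab2
          h1 h2
        rw [hqn] at h3
        exact h3) hE' A B hAB hA hB
    refine le_trans ?_ h1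
    have h4 : c * qq ≤ cS / 4 * q := by
      have h5 : c ≤ cS / 8 := min_le_left _ _
      calc c * qq ≤ cS / 8 * qq := mul_le_mul_of_nonneg_right h5 (Nat.cast_nonneg _)
        _ ≤ cS / 8 * (101 / 100 * q) := mul_le_mul_of_nonneg_left hqq3 (by positivity)
        _ ≤ cS / 4 * q := by nlinarith [mul_pos hcS0 hq0]
    exact mul_le_mul_of_nonneg_right h4 (by positivity)
  have hlow : ∀ v ∈ U, (1 - δ2) * qq ≤ ((nb F' v ∩ U).card : ℝ) := by
    intro v hv
    have h1 := (hdegs v hv).1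
    have h2 : δ2 * q ≤ δ2 * qq := mul_le_mul_of_nonneg_left hqqq hδ2.le
    have h3 : 40 ≤ δ2 * q := by
      have h4 : 40 / δ2 ≤ q := by
        have : 40 / δ2 = 4 * (10 / δ2) := by ring
        rw [this]; linarith
      rw [div_le_iff₀ hδ2] at h4
      linarith
    nlinarith
  obtain ⟨M, hMF, hMm, hMU, hMc⟩ := hTUT F' qq U O Cs hdTq hdeg' hlow hen hFam.crit hFam.dis hCs
    (fun C hC => ⟨f C hC, hOf C hC, (hf C hC).2.2.2.2.1⟩)
  refine ⟨M, O, hMF.trans (Fr_le F U), hMm, hMU, hMc, ?_, ?_, ?_⟩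
  · intro z hz
    obtain ⟨C, hC, rfl⟩ := hOmem z hz
    exact (hFam.crit C hC).1 (hf C hC).1
  · intro z hz
    obtain ⟨C, hC, rfl⟩ := hOmem z hz
    exact ⟨(hf C hC).2.1, (hf C hC).2.2.1, (hf C hC).2.2.2.2.2⟩
  · refine ⟨Cs, hFam.dis, ?_, ?_⟩
    · intro z hz
      obtain ⟨C, hC, rfl⟩ := hOmem z hz
      exact ⟨mem_Vc.mpr (hf C hC).2.1, C, hC, (hf C hC).1, (hf C hC).2.2.2.1⟩
    · intro C hC
      have key : ∀ z ∈ O ∩ C, z = f C hC := by
        intro z hz
        rw [mem_inter] at hz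
        obtain ⟨C', hC', rfl⟩ := hOmem z hz.1
        by_cases he : C' = C
        · subst he; rfl
        · exact absurd hz.2 (disjoint_left.mp (hFam.dis C' hC' C hC he) (hf C' hC').1)
      rw [card_le_one]
      intro z hz z' hz'
      rw [key z hz, key z' hz']

end Pool.Agent.Work.MP_db9399_bg.helper83
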