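import Pool.Agent.Work.MP_db9399_bg.Base

/-! THEOREM BIG: deep vertices in critical sets, common part of RND1 and CAPE (helper83). -/

set_option autoImplicit false

namespace Pool.Agent.Work.MP_db9399_bg.helper83

open Finset Classical
open Pool.Agent.Work.MP_db9399_bg
open Pool.Agent.Work.MP_db9399_all (nb)
open Pool.Agent.Work.MP_db9399_px (LWalk hit ee)
open Pool.Agent.Work.MP_db9399_dn (NB IsMat Tot)
open Pool.Agent.Work.MP_db9399_sc (cut Crit Conn Env Fam Rnd Hv)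

universe u

section
variable {V : Type u} [Fintype V]

/-- one family: at most `N |C ∩ Vg| / ((2 + g / 2) d)` vertices of `O` are deep in `C` -/
theorem used_one (hGROW : Stmt_GROW.{u}) {g : ℝ} (hg : 0 < g) (hg1 : g ≤ 1 / 10)
    (G : SimpleGraph V) (d N : ℕ) (hN : 0 < N) (hBG : BG g (g / 100) G d) (Vg C O : Finset V)
    (hdeg : ∀ v, (1 - g / 100) * d / N ≤ ((nb G v ∩ Vg).card : ℝ))
    (hO : Spr g G d N Vg O) :
    (2 + g / 2) * d * (((C ∩ Vg).filter (fun z => Deep g G d N Vg C z ∧ z ∈ O)).card : ℝ) ≤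
      N * ((C ∩ Vg).card : ℝ) := by
  obtain ⟨Cs, hdis, hz, h1⟩ := hO
  set S : Finset V := (C ∩ Vg).filter (fun z => Deep g G d N Vg C z ∧ z ∈ O) with hS
  have hex : ∀ z : V, ∃ C'' : Finset V, z ∈ S → C'' ∈ Cs ∧ z ∈ C'' ∧ Deep g G d N Vg C'' z := by
    intro z
    by_cases h : z ∈ S
    · obtain ⟨-, C'', h2, h3, h4⟩ := hz z (mem_filter.mp h).2.2
      exact ⟨C'', fun _ => ⟨h2, h3, h4⟩⟩
    · exact ⟨∅, fun h' => absurd h' h⟩
  choose f hf using hex
  have hdisj : ∀ z ∈ S, ∀ z' ∈ S, z ≠ z' →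
      Disjoint (C ∩ f z ∩ Vg) (C ∩ f z' ∩ Vg) := by
    intro z hz1 z' hz2 hne
    have hfne : f z ≠ f z' := by
      intro he
      have h3 := h1 (f z) (hf z hz1).1
      rw [card_le_one] at h3
      refine hne (h3 z ?_ z' ?_)
      · exact mem_inter.mpr ⟨(mem_filter.mp hz1).2.2, (hf z hz1).2.1⟩
      · rw [he]
        exact mem_inter.mpr ⟨(mem_filter.mp hz2).2.2, (hf z' hz2).2.1⟩
    have h4 := hdis _ (hf z hz1).1 _ (hf z' hz2).1 hfne
    refine disjoint_left.mpr fun x hx hx' => ?_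
    rw [mem_inter, mem_inter] at hx hx'
    exact disjoint_left.mp h4 hx.1.2 hx'.1.2
  have hsum : ∑ z ∈ S, (C ∩ f z ∩ Vg).card ≤ (C ∩ Vg).card := by
    rw [← card_biUnion hdisj]
    refine card_le_card fun x hx => ?_
    obtain ⟨z, -, h5⟩ := mem_biUnion.mp hx
    rw [mem_inter, mem_inter] at h5
    exact mem_inter.mpr ⟨h5.1.1, h5.2⟩
  have hlow : ∀ z ∈ S, (2 + g / 2) * d ≤ N * ((C ∩ f z ∩ Vg).card : ℝ) := by
    intro z hz1
    exact hGROW g hg hg1 G d N Vg C (f z) z hN hBG hdeg (mem_filter.mp hz1).2.1 (hf z hz1).2.2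
  calc (2 + g / 2) * d * (S.card : ℝ) = ∑ z ∈ S, (2 + g / 2) * (d : ℝ) := by
        rw [sum_const, nsmul_eq_mul]; ring
    _ ≤ ∑ z ∈ S, N * ((C ∩ f z ∩ Vg).card : ℝ) := sum_le_sum hlow
    _ = N * ((∑ z ∈ S, (C ∩ f z ∩ Vg).card : ℕ) : ℝ) := by
        rw [← mul_sum]; push_cast; ring
    _ ≤ _ := by
        refine mul_le_mul_of_nonneg_left ?_ (Nat.cast_nonneg _)
        exact_mod_cast hsum

/-- the used vertices which are deep in `C` are less than one half of `C ∩ Vg` -/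
theorem used_deep (hGROW : Stmt_GROW.{u}) {g : ℝ} (hg : 0 < g) (hg1 : g ≤ 1 / 10)
    (G : SimpleGraph V) (d N : ℕ) (hN : 0 < N) (hd : 0 < d) (hBG : BG g (g / 100) G d)
    (Vg C : Finset V) (hdeg : ∀ v, (1 - g / 100) * d / N ≤ ((nb G v ∩ Vg).card : ℝ))
    (lg : ℕ) (Oi : ℕ → Finset V) (hlg : lg * N ≤ d) (hO : ∀ i < lg, Spr g G d N Vg (Oi i)) :
    (2 + g / 2) * (((C ∩ Vg).filter (fun z => Deep g G d N Vg C z ∧ ∃ i < lg, z ∈ Oi i)).card : ℝ) ≤
      ((C ∩ Vg).card : ℝ) := by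
  set S : Finset V := (C ∩ Vg).filter (fun z => Deep g G d N Vg C z ∧ ∃ i < lg, z ∈ Oi i) with hS
  have hd' : (0 : ℝ) < d := by exact_mod_cast hd
  have hsub : S ⊆ (range lg).biUnion fun i =>
      (C ∩ Vg).filter (fun z => Deep g G d N Vg C z ∧ z ∈ Oi i) := by
    intro z hz
    obtain ⟨h1, h2, i, h3, h4⟩ := mem_filter.mp hz
    exact mem_biUnion.mpr ⟨i, mem_range.mpr h3, mem_filter.mpr ⟨h1, h2, h4⟩⟩
  have h1 : (S.card : ℝ) ≤ ∑ i ∈ range lg,
      (((C ∩ Vg).filter (fun z => Deep g G d N Vg C z ∧ z ∈ Oi i)).card : ℝ) := by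
    have := (card_le_card hsub).trans card_biUnion_le
    exact_mod_cast this
  have h2 : (2 + g / 2) * d * (S.card : ℝ) ≤ d * ((C ∩ Vg).card : ℝ) := by
    calc (2 + g / 2) * d * (S.card : ℝ) ≤ (2 + g / 2) * d * ∑ i ∈ range lg,
          (((C ∩ Vg).filter (fun z => Deep g G d N Vg C z ∧ z ∈ Oi i)).card : ℝ) :=
          mul_le_mul_of_nonneg_left h1 (by positivity)
      _ = ∑ i ∈ range lg, (2 + g / 2) * d *
          (((C ∩ Vg).filter (fun z => Deep g G d N Vg C z ∧ z ∈ Oi i)).card : ℝ) := by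
          rw [mul_sum]
      _ ≤ ∑ i ∈ range lg, N * ((C ∩ Vg).card : ℝ) := by
          refine sum_le_sum fun i hi => ?_
          exact used_one hGROW hg hg1 G d N hN hBG Vg C (Oi i) hdeg (hO i (mem_range.mp hi))
      _ = ((lg * N : ℕ) : ℝ) * ((C ∩ Vg).card : ℝ) := by
          rw [sum_const, nsmul_eq_mul, card_range]; push_cast; ring
      _ ≤ _ := by
          refine mul_le_mul_of_nonneg_right ?_ (Nat.cast_nonneg _)
          exact_mod_cast hlg
  have h3 : d * ((2 + g / 2) * (S.card : ℝ)) ≤ d * ((C ∩ Vg).card : ℝ) := by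
    calc _ = (2 + g / 2) * d * (S.card : ℝ) := by ring
      _ ≤ _ := h2
  exact le_of_mul_le_mul_left h3 hd'

/-- vertices of `C` which are not deep -/
theorem not_deep (P : V → Prop) (Vg Y C : Finset V) :
    (((C ∩ Vg).filter (fun v => ¬ P v)).card : ℝ) ≤ (((C ∩ Vg) \ Y).card : ℝ) +
      (((Y ∩ Vg).filter (fun v => ¬ P v)).card : ℝ) := by
  have hsub : (C ∩ Vg).filter (fun v => ¬ P v) ⊆ ((C ∩ Vg) \ Y) ∪
      (Y ∩ Vg).filter (fun v => ¬ P v) := by
    intro v hv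
    obtain ⟨h1, h2⟩ := mem_filter.mp hv
    by_cases hY : v ∈ Y
    · exact mem_union_right _ (mem_filter.mpr ⟨mem_inter.mpr ⟨hY, (mem_inter.mp h1).2⟩, h2⟩)
    · exact mem_union_left _ (mem_sdiff.mpr ⟨h1, hY⟩)
  exact_mod_cast (card_le_card hsub).trans (card_union_le _ _)

end

section lbl
variable {V : Type u} [Fintype V] {l m r K K1 : ℕ}

/-- the labels of the reserved set -/
noncomputable def Wl (l : ℕ) : Finset (ZMod (2 * l + 1)) :=
  univ.filter (fun x => 1 ≤ x.val ∧ x.val ≤ l)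

theorem card_Wl (l : ℕ) : (Wl l).card = l := by
  have h : (Wl l).card = (Finset.Icc 1 l).card := by
    refine card_nbij' (fun x => x.val) (fun n => (n : ZMod (2 * l + 1))) ?_ ?_ ?_ ?_
    · intro x hx
      simp only [Wl, coe_filter, mem_univ, true_and, Set.mem_setOf_eq] at hx
      simpa using hx
    · intro n hn
      simp only [coe_Icc, Set.mem_Icc] at hn
      simp only [Wl, coe_filter, mem_univ, true_and, Set.mem_setOf_eq]
      rw [ZMod.val_natCast_of_lt (by omega)]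
      exact hn
    · intro x _
      exact ZMod.natCast_zmod_val x
    · intro n hn
      simp only [coe_Icc, Set.mem_Icc] at hn
      exact ZMod.val_natCast_of_lt (by omega)
  rw [h]
  simp

theorem den_W (A : Finset (ZMod (2 * m + 1))) :
    den (bx A (Wl l) univ univ univ univ : Finset (Lbl l m r K K1)) =
      (A.card / (2 * (m : ℝ) + 1)) * (l / (2 * (l : ℝ) + 1)) := by
  rw [den_bx, card_univ_zmod, card_univ_fin, card_univ_fin, card_univ_fin, card_Wl]
  have h1 : (2 * (m : ℝ) + 1) ≠ 0 := by positivity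
  have h3 : ((r : ℝ) + 1) ≠ 0 := by positivity
  have h4 : ((K : ℝ) + 1) ≠ 0 := by positivity
  have h5 : ((K1 : ℝ) + 1) ≠ 0 := by positivity
  field_simp

theorem mem_Wbx {A : Finset (ZMod (2 * m + 1))} {t : Lbl l m r K K1} :
    t ∈ bx A (Wl l) univ univ univ univ ↔ t.1 ∈ A ∧ inW t := by
  rw [mem_bx]
  simp [Wl, inW]

theorem den_univ' [Nonempty (Lbl l m r K K1)] : den (univ : Finset (Lbl l m r K K1)) = 1 := by
  unfold den
  rw [card_univ]
  exact div_self (by exact_mod_cast Fintype.card_ne_zero)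

theorem cl_univ {T : Type} [Fintype T] (lab : V → T) : cl lab (univ : Finset T) = univ := by
  ext v
  simp [mem_cl]

/-- degrees into a cell -/
theorem cell_deg {G : SimpleGraph V} {d : ℕ} {σ c1 ε0 g : ℝ} {lab : V → Lbl l m r K K1}
    (hL : LabP G d σ c1 lab) (hBG : BG g ε0 G d) (hε : ε0 ≤ g / 200) (hg : 0 < g)
    (hg1 : g ≤ 1 / 10)
    (hσ : σ * (2 * (m : ℝ) + 1) ≤ g / 200) (a : ZMod (2 * m + 1)) (v : V) :
    (1 - g / 100) * d / ((2 * m + 1 : ℕ) : ℝ) ≤ ((nb G v ∩ Vc lab a).card : ℝ) ∧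
      ((nb G v ∩ Vc lab a).card : ℝ) ≤ 2 * d / ((2 * m + 1 : ℕ) : ℝ) := by
  have h1 := hL.deg v (bx {a} univ univ univ univ univ)
  rw [← Vc_eq, den_cell, abs_le] at h1
  have h2 : ((nb G v).card : ℝ) ≤ d := by exact_mod_cast hBG.deg v
  have h3 := hBG.low v
  have hN : (0 : ℝ) < 2 * (m : ℝ) + 1 := by positivity
  have hd0 : (0 : ℝ) ≤ d := Nat.cast_nonneg _
  push_cast
  obtain ⟨h4, h5⟩ := h1
  have h6 : 1 / (2 * (m : ℝ) + 1) * ((nb G v).card : ℝ) = ((nb G v).card : ℝ) / (2 * (m : ℝ) + 1) := by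
    ring
  rw [h6] at h4 h5
  have h7 : σ * d * (2 * (m : ℝ) + 1) ≤ g / 200 * d := by
    calc σ * d * (2 * (m : ℝ) + 1) = σ * (2 * (m : ℝ) + 1) * d := by ring
      _ ≤ _ := mul_le_mul_of_nonneg_right hσ hd0
  have h8 : (nb G v).card / (2 * (m : ℝ) + 1) * (2 * (m : ℝ) + 1) = ((nb G v).card : ℝ) := by
    field_simp
  have h9 : ε0 * d ≤ g / 200 * d := mul_le_mul_of_nonneg_right hε hd0
  constructor
  · rw [div_le_iff₀ hN]
    have h10 : ((nb G v).card / (2 * (m : ℝ) + 1) - σ * d) * (2 * (m : ℝ) + 1) ≤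
        ((nb G v ∩ Vc lab a).card : ℝ) * (2 * (m : ℝ) + 1) :=
      mul_le_mul_of_nonneg_right (by linarith) hN.le
    rw [sub_mul, h8] at h10
    nlinarith
  · rw [le_div_iff₀ hN]
    have h10 : ((nb G v ∩ Vc lab a).card : ℝ) * (2 * (m : ℝ) + 1) ≤
        ((nb G v).card / (2 * (m : ℝ) + 1) + σ * d) * (2 * (m : ℝ) + 1) :=
      mul_le_mul_of_nonneg_right (by linarith) hN.le
    rw [add_mul, h8] at h10
    nlinarith

end lbl

end Pool.Agent.Work.MP_db9399_bg.helper83
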