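import Pool.Agent.Work.MP_db9399_bg_helper83.Deep0

/-! THEOREM BIG: restriction to `U`, degrees, vertices which are not `Ok` (helper83). -/

set_option autoImplicit false

namespace Pool.Agent.Work.MP_db9399_bg.helper83

open Finset Classical
open Pool.Agent.Work.MP_db9399_bg
open Pool.Agent.Work.MP_db9399_all (nb)
open Pool.Agent.Work.MP_db9399_px (LWalk hit ee)
open Pool.Agent.Work.MP_db9399_dn (NB IsMat Tot)
open Pool.Agent.Work.MP_db9399_sc (cut Crit Conn Env Fam Rnd Hv)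

universe u

section
variable {V : Type u} [Fintype V]

/-- the edges inside `U` -/
def Fr (F : SimpleGraph V) (U : Finset V) : SimpleGraph V where
  Adj v w := F.Adj v w ∧ v ∈ U ∧ w ∈ U
  symm := ⟨fun v w h => ⟨h.1.symm, h.2.2, h.2.1⟩⟩
  loopless := ⟨fun v h => F.loopless.irrefl v h.1⟩

theorem Fr_le (F : SimpleGraph V) (U : Finset V) : Fr F U ≤ F := fun _ _ h => h.1

theorem nb_Fr (F : SimpleGraph V) {U : Finset V} {v : V} (hv : v ∈ U) :
    nb (Fr F U) v = nb F v ∩ U := by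
  ext w
  rw [mem_nb, mem_inter, mem_nb]
  exact ⟨fun h => ⟨h.1, h.2.2⟩, fun h => ⟨h.1, hv, h.2⟩⟩

theorem nb_Fr' (F : SimpleGraph V) {U : Finset V} {v : V} (hv : v ∉ U) :
    nb (Fr F U) v = ∅ := by
  ext w
  rw [mem_nb]
  constructor
  · intro h; exact absurd h.2.1 hv
  · intro h; simp at h

theorem nb_Fr_inter (F : SimpleGraph V) {U : Finset V} {v : V} (hv : v ∈ U) :
    nb (Fr F U) v ∩ U = nb F v ∩ U := by
  rw [nb_Fr F hv, inter_assoc, inter_self]

theorem en_Fr (F : SimpleGraph V) (U A B : Finset V) (hA : A ⊆ U) (hB : B ⊆ U) :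
    en (Fr F U) U A B = en F U A B := by
  unfold en
  congr 1
  · exact sum_congr rfl fun t ht => by rw [nb_Fr_inter F (hA ht)]
  · exact sum_congr rfl fun t ht => by rw [nb_Fr_inter F (hB ht)]

theorem REnv.restrict {T β : Type} [Fintype β] {G F : SimpleGraph V} {q δ : ℝ} {lab : V → T}
    {P : β → Finset T} {R : β → β → Prop} {U J : Finset V} (h : REnv G F q δ lab P R U J) :
    REnv G (Fr F U) q δ lab P R U J where
  FG := (Fr_le F U).trans h.FG
  JU := h.JU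
  UP := h.UP
  JP := h.JP
  FF b v hv hb w hw hJ ha := h.FF b v hv hb w hw hJ ha.1
  JJ v hv w hw ha := h.JJ v hv w hw ha.1
  miss b v hv hb := by rw [nb_Fr_inter F hv]; exact h.miss b v hv hb
  out := h.out
  junk := h.junk
  jdeg v hv := by rw [nb_Fr_inter F (h.JU hv)]; exact h.jdeg v hv

/-- degrees in the situation of a round -/
theorem env_deg {T β : Type} [Fintype T] [Fintype β] {P : β → Finset T} {R : β → β → Prop}
    {n L : ℕ} {p : ℝ} (hP : IsPat P R n L p) {G F : SimpleGraph V} {d : ℕ} {σ c1 ε0 g δ : ℝ}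
    {lab : V → T} {U J : Finset V} (hL : LabP G d σ c1 lab) (hBG : BG g ε0 G d)
    (hE : REnv G F (n * p * d) δ lab P R U J) (hσ : σ * d ≤ δ * (n * p * d)) (hε : ε0 ≤ δ)
    (hδ : 0 ≤ δ) (v : V) (hv : v ∈ U) :
    (1 - 3 * δ) * (n * p * d) ≤ ((nb F v ∩ U).card : ℝ) ∧
      ((nb F v ∩ U).card : ℝ) ≤ (1 + 2 * δ) * (n * p * d) := by
  have hq0 : (0 : ℝ) ≤ n * p * d := by
    have := hP.p0
    positivity
  by_cases hJ : v ∈ J
  · obtain ⟨h1, h2⟩ := hE.jdeg v hJ
    have h3 : 0 ≤ δ * (n * p * d) := mul_nonneg hδ hq0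
    constructor <;> nlinarith
  obtain ⟨b, hb⟩ := hE.UP v hv hJ
  have h1 := hL.deg v (PN P R b)
  rw [hP.den_PN b, abs_le] at h1
  have hdeg : ((nb G v).card : ℝ) ≤ d := by exact_mod_cast hBG.deg v
  have hlow := hBG.low v
  have hnp : (0 : ℝ) ≤ n * p := mul_nonneg (Nat.cast_nonneg _) hP.p0.le
  have h2 : (n : ℝ) * p * ((nb G v).card : ℝ) ≤ n * p * d := mul_le_mul_of_nonneg_left hdeg hnp
  have h3 : (1 - δ) * (n * p * d) ≤ (n : ℝ) * p * ((nb G v).card : ℝ) := by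
    have h4 : (1 - δ) * d ≤ ((nb G v).card : ℝ) := by
      have : ε0 * d ≤ δ * d := mul_le_mul_of_nonneg_right hε (Nat.cast_nonneg _)
      linarith
    calc (1 - δ) * (n * p * d) = n * p * ((1 - δ) * d) := by ring
      _ ≤ _ := mul_le_mul_of_nonneg_left h4 hnp
  have hmiss := hE.miss b v hv hb
  have hjunk := hE.junk v
  constructor
  · have h5 : ((nb G v ∩ cl lab (PN P R b)).card : ℝ) ≤
        (((nb G v ∩ cl lab (PN P R b)) \ (nb F v ∩ U)).card : ℝ) + ((nb F v ∩ U).card : ℝ) := by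
      have : nb G v ∩ cl lab (PN P R b) ⊆
          ((nb G v ∩ cl lab (PN P R b)) \ (nb F v ∩ U)) ∪ (nb F v ∩ U) := by
        intro x hx
        by_cases h : x ∈ nb F v ∩ U
        · exact mem_union_right _ h
        · exact mem_union_left _ (mem_sdiff.mpr ⟨hx, h⟩)
      exact_mod_cast (card_le_card this).trans (card_union_le _ _)
    linarith [h1.1]
  · have h5 : ((nb F v ∩ U).card : ℝ) ≤ ((nb G v ∩ cl lab (PN P R b)).card : ℝ) +
        ((nb G v ∩ J).card : ℝ) := by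
      have : nb F v ∩ U ⊆ (nb G v ∩ cl lab (PN P R b)) ∪ (nb G v ∩ J) := by
        intro x hx
        rw [mem_inter, mem_nb] at hx
        have hG : x ∈ nb G v := mem_nb.mpr (hE.FG hx.1)
        by_cases hxJ : x ∈ J
        · exact mem_union_right _ (mem_inter.mpr ⟨hG, hxJ⟩)
        · exact mem_union_left _ (mem_inter.mpr ⟨hG, mem_cl.mpr (hE.FF b v hv hb x hx.2 hxJ hx.1)⟩)
      exact_mod_cast (card_le_card this).trans (card_union_le _ _)
    linarith [h1.2]

/-- few vertices of a critical set are not `Ok` -/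
theorem notOk_card (F : SimpleGraph V) (U C : Finset V) (qq : ℕ) (q1 : ℝ)
    (hlow : ∀ v ∈ U, q1 ≤ ((nb F v ∩ U).card : ℝ)) (hCU : C ⊆ U)
    (hcut : 5 * cut F U C < 7 * qq) (hq : 7 / 5 * (qq : ℝ) ≤ 2 * (q1 - 3)) :
    (C.filter (fun z => ¬ Ok F U C z)).card ≤ 4 + cut F U C := by
  set A1 : Finset V := C.filter (fun z => (nb F z ∩ C).card < 4) with hA1
  set A3 : Finset V := C.filter (fun z => (nb F z ∩ (U \ C)).Nonempty) with hA3
  have hsub : C.filter (fun z => ¬ Ok F U C z) ⊆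
      (A1 ∪ A1.biUnion (fun x => nb F x ∩ C)) ∪ A3 := by
    intro z hz
    obtain ⟨hzC, hz2⟩ := mem_filter.mp hz
    by_cases h1 : (nb F z ∩ C).card < 4
    · exact mem_union_left _ (mem_union_left _ (mem_filter.mpr ⟨hzC, h1⟩))
    have h2 : ∃ x ∈ nb F z ∩ U, (nb F x ∩ C).card < 4 := by
      by_contra hno
      push Not at hno
      exact hz2 ⟨hzC, by omega, hno⟩
    obtain ⟨x, hx, hx4⟩ := h2
    rw [mem_inter, mem_nb] at hx
    by_cases hxC : x ∈ C
    · refine mem_union_left _ (mem_union_right _ (mem_biUnion.mpr ⟨x, mem_filter.mpr ⟨hxC, hx4⟩, ?_⟩))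
      exact mem_inter.mpr ⟨mem_nb.mpr hx.1.symm, hzC⟩
    · refine mem_union_right _ (mem_filter.mpr ⟨hzC, x, ?_⟩)
      exact mem_inter.mpr ⟨mem_nb.mpr hx.1, mem_sdiff.mpr ⟨hx.2, hxC⟩⟩
  have hA1c : A1.card ≤ 1 := by
    by_contra hlt
    push Not at hlt
    have h1 : ∀ x ∈ A1, q1 - 3 ≤ ((nb F x ∩ (U \ C)).card : ℝ) := by
      intro x hx
      obtain ⟨hxC, hx4⟩ := mem_filter.mp hx
      have h2 : (nb F x ∩ U).card ≤ (nb F x ∩ (U \ C)).card + (nb F x ∩ C).card := by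
        have : nb F x ∩ U ⊆ (nb F x ∩ (U \ C)) ∪ (nb F x ∩ C) := by
          intro y hy
          rw [mem_inter] at hy
          by_cases hyC : y ∈ C
          · exact mem_union_right _ (mem_inter.mpr ⟨hy.1, hyC⟩)
          · exact mem_union_left _ (mem_inter.mpr ⟨hy.1, mem_sdiff.mpr ⟨hy.2, hyC⟩⟩)
        exact (card_le_card this).trans (card_union_le _ _)
      have h3 := hlow x (hCU hxC)
      have h4 : ((nb F x ∩ U).card : ℝ) ≤ ((nb F x ∩ (U \ C)).card : ℝ) + 3 := by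
        exact_mod_cast (by omega : (nb F x ∩ U).card ≤ (nb F x ∩ (U \ C)).card + 3)
      linarith
    have h5 : (A1.card : ℝ) * (q1 - 3) ≤ (cut F U C : ℝ) := by
      calc (A1.card : ℝ) * (q1 - 3) = ∑ x ∈ A1, (q1 - 3) := by rw [sum_const, nsmul_eq_mul]
        _ ≤ ∑ x ∈ A1, ((nb F x ∩ (U \ C)).card : ℝ) := sum_le_sum h1
        _ ≤ ∑ x ∈ C, ((nb F x ∩ (U \ C)).card : ℝ) :=
            sum_le_sum_of_subset_of_nonneg (filter_subset _ _) fun _ _ _ => Nat.cast_nonneg _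
        _ = _ := by unfold cut; push_cast; rfl
    have h6 : (2 : ℝ) ≤ A1.card := by exact_mod_cast hlt
    have h7 : (5 : ℝ) * cut F U C < 7 * qq := by exact_mod_cast hcut
    have h8 : 0 ≤ q1 - 3 := by
      have : (0 : ℝ) ≤ qq := Nat.cast_nonneg _
      linarith
    nlinarith
  have hA3c : A3.card ≤ cut F U C := by
    calc A3.card = ∑ z ∈ A3, 1 := by simp
      _ ≤ ∑ z ∈ A3, (nb F z ∩ (U \ C)).card := by
          refine sum_le_sum fun z hz => ?_
          exact card_pos.mpr (mem_filter.mp hz).2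
      _ ≤ cut F U C := by
          unfold cut
          exact sum_le_sum_of_subset_of_nonneg (filter_subset _ _) fun _ _ _ => Nat.zero_le _
  have hA2c : (A1.biUnion (fun x => nb F x ∩ C)).card ≤ 3 := by
    calc _ ≤ ∑ x ∈ A1, (nb F x ∩ C).card := card_biUnion_le
      _ ≤ ∑ x ∈ A1, 3 := by
          refine sum_le_sum fun x hx => ?_
          have := (mem_filter.mp hx).2
          omega
      _ = A1.card * 3 := by simp
      _ ≤ 3 := by omega
  have h1 := (card_le_card hsub).trans (card_union_le _ _)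
  have h2 := card_union_le A1 (A1.biUnion (fun x => nb F x ∩ C))
  omega

end

/-- final inequality -/
theorem final_ineq {t l ε κ g x1 b1 b2 b3 cv : ℝ} (ht : 0 < t) (hg : 0 < g)
    (hg1 : g ≤ 1 / 10) (hκ : 0 < κ) (hε : 0 ≤ ε) (hε1 : ε * (4 + 2 * κ) ≤ g / 40)
    (hl : 200 ≤ g * (2 * l + 1)) (hl0 : 0 < 2 * l + 1)
    (h1 : t * (l / (2 * l + 1) - 2 * ε) ≤ x1) (h2 : b1 ≤ (1 + 2 * κ) * ε * t) (h0 : 0 ≤ b2)
    (h3 : (2 + g / 2) * b2 ≤ cv) (h4 : cv ≤ (1 + 2 * ε) * t) (h5 : b3 ≤ 4 * t / (2 * l + 1)) :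
    b1 + b2 + b3 < x1 := by
  have e1 : l / (2 * l + 1) = 1 / 2 - 1 / 2 * (1 / (2 * l + 1)) := by
    have hne : (2 * l + 1) ≠ 0 := hl0.ne'
    rw [div_eq_iff hne, sub_mul, mul_assoc, one_div_mul_cancel hne]
    ring
  set u := 1 / (2 * l + 1) with hu
  have e2 : 4 * t / (2 * l + 1) = 4 * t * u := by rw [hu]; ring
  rw [e1] at h1
  rw [e2] at h5
  have hu1 : 200 * u ≤ g := by
    rw [hu, mul_one_div, div_le_iff₀ hl0]
    exact hl
  have hu0 : 0 < u := by rw [hu]; positivity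
  have hb2 : b2 ≤ cv * (1 / 2 - g / 10) := by
    have h6 : (1 : ℝ) ≤ (2 + g / 2) * (1 / 2 - g / 10) := by nlinarith
    have h7 : b2 * 1 ≤ b2 * ((2 + g / 2) * (1 / 2 - g / 10)) := mul_le_mul_of_nonneg_left h6 h0
    have h8 : (2 + g / 2) * b2 * (1 / 2 - g / 10) ≤ cv * (1 / 2 - g / 10) :=
      mul_le_mul_of_nonneg_right h3 (by linarith)
    nlinarith
  have hb2' : b2 ≤ (1 + 2 * ε) * t * (1 / 2 - g / 10) :=
    hb2.trans (mul_le_mul_of_nonneg_right h4 (by linarith))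
  have hεt : 0 ≤ ε * t := mul_nonneg hε ht.le
  have h9 : ε * (4 + 2 * κ) * t ≤ g / 40 * t := mul_le_mul_of_nonneg_right hε1 ht.le
  have h10 : 200 * u * t ≤ g * t := mul_le_mul_of_nonneg_right hu1 ht.le
  have h11 : 0 < g * t := mul_pos hg ht
  have h12 : 0 ≤ ε * t * g := mul_nonneg hεt hg.le
  nlinarith

end Pool.Agent.Work.MP_db9399_bg.helper83
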